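import Mathlib

/-!
# Rows of the matrices of `U(1,m)` and `Sp(1,m)` with the last row as the variable

`rows2`, `rows4`: the matrices `R w` (`2 x N` and `4 x N`) with `R w * (R w)ᵀ = |w|² • 1` and last
row `w`, such that the matrices with the rows `A y, A (S y)` (`A y, A (I y), A (J y), A (I J y)`) are
the matrices `R w * Aᵀ`.
-/

namespace Pool.Agent.Helper17.ZD

open Matrix

variable {n N : ℕ}

/-- The rows `-S w, w`. -/
def rows2 (S : Matrix (Fin N) (Fin N) ℝ) (w : Fin N → ℝ) : Matrix (Fin 2) (Fin N) ℝ :=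
  Matrix.of ![-(S *ᵥ w), w]

/-- The rows `-I J w, J w, -I w, w`. -/
def rows4 (I J : Matrix (Fin N) (Fin N) ℝ) (w : Fin N → ℝ) : Matrix (Fin 4) (Fin N) ℝ :=
  Matrix.of ![-((I * J) *ᵥ w), J *ᵥ w, -(I *ᵥ w), w]

theorem of_mul_transpose {k : ℕ} (A : Matrix (Fin n) (Fin N) ℝ) (v : Fin k → Fin N → ℝ) :
    Matrix.of v * Aᵀ = Matrix.of fun i => A *ᵥ v i := by
  ext i j
  simp only [Matrix.mul_apply, Matrix.of_apply, Matrix.transpose_apply, Matrix.mulVec, dotProduct]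
  exact Finset.sum_congr rfl fun x _ => mul_comm _ _

theorem rows2_mul (A : Matrix (Fin n) (Fin N) ℝ) {S : Matrix (Fin N) (Fin N) ℝ}
    (hS : S * S = -1) (w : Fin N → ℝ) :
    rows2 S w * Aᵀ = Matrix.of ![A *ᵥ (-(S *ᵥ w)), A *ᵥ (S *ᵥ (-(S *ᵥ w)))] := by
  have h : S *ᵥ (-(S *ᵥ w)) = w := by
    rw [Matrix.mulVec_neg, Matrix.mulVec_mulVec, hS, Matrix.neg_mulVec, Matrix.one_mulVec, neg_neg]
  rw [rows2, of_mul_transpose, h]
  ext i j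
  fin_cases i <;> rfl

theorem rows4_mul (A : Matrix (Fin n) (Fin N) ℝ) {I J : Matrix (Fin N) (Fin N) ℝ}
    (hI : I * I = -1) (hJ : J * J = -1) (hIJ : I * J = -(J * I)) (w : Fin N → ℝ) :
    rows4 I J w * Aᵀ = Matrix.of ![A *ᵥ (-((I * J) *ᵥ w)), A *ᵥ (I *ᵥ (-((I * J) *ᵥ w))),
      A *ᵥ (J *ᵥ (-((I * J) *ᵥ w))), A *ᵥ ((I * J) *ᵥ (-((I * J) *ᵥ w)))] := by
  have h1 : I *ᵥ (-((I * J) *ᵥ w)) = J *ᵥ w := by
    rw [Matrix.mulVec_neg, Matrix.mulVec_mulVec, ← Matrix.mul_assoc, hI, Matrix.neg_mul,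
      Matrix.one_mul, Matrix.neg_mulVec, neg_neg]
  have h2 : J *ᵥ (-((I * J) *ᵥ w)) = -(I *ᵥ w) := by
    rw [Matrix.mulVec_neg, Matrix.mulVec_mulVec, ← Matrix.mul_assoc]
    have : J * I = -(I * J) := by rw [hIJ, neg_neg]
    rw [this, Matrix.neg_mul, Matrix.mul_assoc, hJ, Matrix.mul_neg, Matrix.mul_one, neg_neg]
  have h3 : (I * J) *ᵥ (-((I * J) *ᵥ w)) = w := by
    have h4 : I * J * (I * J) = -1 := by
      have h5 : J * (I * J) = I := by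
        have : J * I = -(I * J) := by rw [hIJ, neg_neg]
        rw [← Matrix.mul_assoc, this, Matrix.neg_mul, Matrix.mul_assoc, hJ, Matrix.mul_neg,
          Matrix.mul_one, neg_neg]
      rw [Matrix.mul_assoc, h5, hI]
    rw [Matrix.mulVec_neg, Matrix.mulVec_mulVec, h4, Matrix.neg_mulVec, Matrix.one_mulVec, neg_neg]
  rw [rows4, of_mul_transpose, h1, h2, h3]
  ext i j
  fin_cases i <;> rfl

theorem skew_self {S : Matrix (Fin N) (Fin N) ℝ} (hS : Sᵀ = -S) (w : Fin N → ℝ) :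
    (S *ᵥ w) ⬝ᵥ w = 0 := by
  have h : (S *ᵥ w) ⬝ᵥ w = -((S *ᵥ w) ⬝ᵥ w) := by
    calc (S *ᵥ w) ⬝ᵥ w = w ⬝ᵥ (Sᵀ *ᵥ w) := by
          rw [Matrix.dotProduct_mulVec, Matrix.vecMul_transpose]
      _ = -((S *ᵥ w) ⬝ᵥ w) := by
          rw [hS, Matrix.neg_mulVec, dotProduct_neg, dotProduct_comm]
  linarith

theorem skew_mul {S T : Matrix (Fin N) (Fin N) ℝ} (hS : Sᵀ = -S) (w : Fin N → ℝ) :
    (S *ᵥ w) ⬝ᵥ (T *ᵥ w) = -(((S * T) *ᵥ w) ⬝ᵥ w) := by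
  calc (S *ᵥ w) ⬝ᵥ (T *ᵥ w) = w ⬝ᵥ (Sᵀ *ᵥ (T *ᵥ w)) := by
        rw [Matrix.dotProduct_mulVec w, Matrix.vecMul_transpose]
    _ = -(((S * T) *ᵥ w) ⬝ᵥ w) := by
        rw [hS, Matrix.neg_mulVec, dotProduct_neg, Matrix.mulVec_mulVec, dotProduct_comm]

theorem rows2_gram {S : Matrix (Fin N) (Fin N) ℝ} (hS : Sᵀ = -S) (hS2 : S * S = -1)
    (w : Fin N → ℝ) : rows2 S w * (rows2 S w)ᵀ = (w ⬝ᵥ w) • 1 := by
  have h1 : (S *ᵥ w) ⬝ᵥ w = 0 := skew_self hS w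
  have h1' : w ⬝ᵥ (S *ᵥ w) = 0 := by rw [dotProduct_comm]; exact h1
  have h2 : (S *ᵥ w) ⬝ᵥ (S *ᵥ w) = w ⬝ᵥ w := by
    rw [skew_mul hS, hS2, Matrix.neg_mulVec, Matrix.one_mulVec, neg_dotProduct, neg_neg]
  ext i j
  have key : (rows2 S w * (rows2 S w)ᵀ) i j = (rows2 S w i) ⬝ᵥ (rows2 S w j) := rfl
  have r0 : rows2 S w 0 = -(S *ᵥ w) := rfl
  have r1 : rows2 S w 1 = w := rfl
  rw [key]
  fin_cases i <;> fin_cases j <;>
    simp [r0, r1, h1, h1', h2]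

theorem rows4_gram {I J : Matrix (Fin N) (Fin N) ℝ} (hI : Iᵀ = -I) (hJ : Jᵀ = -J)
    (hI2 : I * I = -1) (hJ2 : J * J = -1) (hIJ : I * J = -(J * I)) (w : Fin N → ℝ) :
    rows4 I J w * (rows4 I J w)ᵀ = (w ⬝ᵥ w) • 1 := by
  have hJI : J * I = -(I * J) := by rw [hIJ, neg_neg]
  have hK : (I * J)ᵀ = -(I * J) := by
    rw [Matrix.transpose_mul, hI, hJ, Matrix.neg_mul, Matrix.mul_neg, neg_neg, hJI]
  have hK2 : I * J * (I * J) = -1 := by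
    have h5 : J * (I * J) = I := by
      rw [← Matrix.mul_assoc, hJI, Matrix.neg_mul, Matrix.mul_assoc, hJ2, Matrix.mul_neg,
        Matrix.mul_one, neg_neg]
    rw [Matrix.mul_assoc, h5, hI2]
  have a1 : (I *ᵥ w) ⬝ᵥ w = 0 := skew_self hI w
  have a2 : (J *ᵥ w) ⬝ᵥ w = 0 := skew_self hJ w
  have a3 : ((I * J) *ᵥ w) ⬝ᵥ w = 0 := skew_self hK w
  have b1 : w ⬝ᵥ (I *ᵥ w) = 0 := by rw [dotProduct_comm]; exact a1
  have b2 : w ⬝ᵥ (J *ᵥ w) = 0 := by rw [dotProduct_comm]; exact a2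
  have b3 : w ⬝ᵥ ((I * J) *ᵥ w) = 0 := by rw [dotProduct_comm]; exact a3
  have c1 : (I *ᵥ w) ⬝ᵥ (I *ᵥ w) = w ⬝ᵥ w := by
    rw [skew_mul hI, hI2, Matrix.neg_mulVec, Matrix.one_mulVec, neg_dotProduct, neg_neg]
  have c2 : (J *ᵥ w) ⬝ᵥ (J *ᵥ w) = w ⬝ᵥ w := by
    rw [skew_mul hJ, hJ2, Matrix.neg_mulVec, Matrix.one_mulVec, neg_dotProduct, neg_neg]
  have c3 : ((I * J) *ᵥ w) ⬝ᵥ ((I * J) *ᵥ w) = w ⬝ᵥ w := by
    rw [skew_mul hK, hK2, Matrix.neg_mulVec, Matrix.one_mulVec, neg_dotProduct, neg_neg]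
  have d1 : (I *ᵥ w) ⬝ᵥ (J *ᵥ w) = 0 := by rw [skew_mul hI, a3, neg_zero]
  have d1' : (J *ᵥ w) ⬝ᵥ (I *ᵥ w) = 0 := by rw [dotProduct_comm]; exact d1
  have d2 : (I *ᵥ w) ⬝ᵥ ((I * J) *ᵥ w) = 0 := by
    rw [skew_mul hI, ← Matrix.mul_assoc, hI2, Matrix.neg_mul, Matrix.one_mul, Matrix.neg_mulVec,
      neg_dotProduct, a2, neg_zero, neg_zero]
  have d2' : ((I * J) *ᵥ w) ⬝ᵥ (I *ᵥ w) = 0 := by rw [dotProduct_comm]; exact d2
  have d3 : (J *ᵥ w) ⬝ᵥ ((I * J) *ᵥ w) = 0 := by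
    rw [skew_mul hJ, ← Matrix.mul_assoc, hJI, Matrix.neg_mul, Matrix.mul_assoc, hJ2,
      Matrix.mul_neg, Matrix.mul_one, neg_neg, a1, neg_zero]
  have d3' : ((I * J) *ᵥ w) ⬝ᵥ (J *ᵥ w) = 0 := by rw [dotProduct_comm]; exact d3
  ext i j
  have key : (rows4 I J w * (rows4 I J w)ᵀ) i j = (rows4 I J w i) ⬝ᵥ (rows4 I J w j) := rfl
  have r0 : rows4 I J w 0 = -((I * J) *ᵥ w) := rfl
  have r1 : rows4 I J w 1 = J *ᵥ w := rfl
  have r2 : rows4 I J w 2 = -(I *ᵥ w) := rfl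
  have r3 : rows4 I J w 3 = w := rfl
  rw [key]
  fin_cases i <;> fin_cases j <;>
    simp [r0, r1, r2, r3, a1, a2, a3, b1, b2, b3, c1, c2, c3, d1, d1', d2, d2', d3, d3']

/-- The set of the matrices with the rows `A y, A (S y)` is the set of the `rows2 S w * Aᵀ`. -/
theorem exists_rows2 (A : Matrix (Fin n) (Fin N) ℝ) {S : Matrix (Fin N) (Fin N) ℝ}
    (hS : S * S = -1) (B : Matrix (Fin 2) (Fin n) ℝ) :
    (∃ y : Fin N → ℝ, B = Matrix.of ![A *ᵥ y, A *ᵥ (S *ᵥ y)]) ↔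
      ∃ w : Fin N → ℝ, B = rows2 S w * Aᵀ := by
  constructor
  · rintro ⟨y, rfl⟩
    refine ⟨S *ᵥ y, ?_⟩
    have h : -(S *ᵥ (S *ᵥ y)) = y := by
      rw [Matrix.mulVec_mulVec, hS, Matrix.neg_mulVec, Matrix.one_mulVec, neg_neg]
    rw [rows2_mul A hS, h]
  · rintro ⟨w, rfl⟩
    exact ⟨_, rows2_mul A hS w⟩

/-- The set of the matrices with the rows `A y, A (I y), A (J y), A (I J y)` is the set of the
`rows4 I J w * Aᵀ`. -/
theorem exists_rows4 (A : Matrix (Fin n) (Fin N) ℝ) {I J : Matrix (Fin N) (Fin N) ℝ}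
    (hI : I * I = -1) (hJ : J * J = -1) (hIJ : I * J = -(J * I)) (B : Matrix (Fin 4) (Fin n) ℝ) :
    (∃ y : Fin N → ℝ, B = Matrix.of ![A *ᵥ y, A *ᵥ (I *ᵥ y), A *ᵥ (J *ᵥ y),
      A *ᵥ ((I * J) *ᵥ y)]) ↔ ∃ w : Fin N → ℝ, B = rows4 I J w * Aᵀ := by
  constructor
  · rintro ⟨y, rfl⟩
    refine ⟨(I * J) *ᵥ y, ?_⟩
    have hK2 : I * J * (I * J) = -1 := by
      have hJI : J * I = -(I * J) := by rw [hIJ, neg_neg]
      have h5 : J * (I * J) = I := by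
        rw [← Matrix.mul_assoc, hJI, Matrix.neg_mul, Matrix.mul_assoc, hJ, Matrix.mul_neg,
          Matrix.mul_one, neg_neg]
      rw [Matrix.mul_assoc, h5, hI]
    have h : -((I * J) *ᵥ ((I * J) *ᵥ y)) = y := by
      rw [Matrix.mulVec_mulVec, hK2, Matrix.neg_mulVec, Matrix.one_mulVec, neg_neg]
    rw [rows4_mul A hI hJ hIJ, h]
  · rintro ⟨w, rfl⟩
    exact ⟨_, rows4_mul A hI hJ hIJ w⟩

theorem continuous_rows2 (S : Matrix (Fin N) (Fin N) ℝ) : Continuous (rows2 S) := by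
  have h : Continuous fun w : Fin N → ℝ => S *ᵥ w := Continuous.matrix_mulVec continuous_const
    continuous_id
  refine continuous_pi fun i => continuous_pi fun j => ?_
  fin_cases i
  · exact (continuous_apply j).comp h.neg
  · exact continuous_apply j

theorem continuous_rows4 (I J : Matrix (Fin N) (Fin N) ℝ) : Continuous (rows4 I J) := by
  have h : ∀ M : Matrix (Fin N) (Fin N) ℝ, Continuous fun w : Fin N → ℝ => M *ᵥ w := fun M =>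
    Continuous.matrix_mulVec continuous_const continuous_id
  refine continuous_pi fun i => continuous_pi fun j => ?_
  fin_cases i
  · exact (continuous_apply j).comp (h (I * J)).neg
  · exact (continuous_apply j).comp (h J)
  · exact (continuous_apply j).comp (h I).neg
  · exact continuous_apply j

end Pool.Agent.Helper17.ZD
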